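import Mathlib

set_option autoImplicit false

/-!
Blocking words for images of words in which some generator occurs only with positive exponents.
-/

namespace Pool.Agent.ThreeP

open FreeGroup

variable {α : Type} [DecidableEq α]

lemma toWord_letter (x : α × Bool) : (mk [x] : FreeGroup α).toWord = [x] := by
  rw [toWord_mk, reduce_singleton]

lemma toWord_mk_of_isReduced {L : List (α × Bool)} (h : IsReduced L) :
    (mk L : FreeGroup α).toWord = L := by
  rw [toWord_mk, h.reduce_eq]

lemma toWord_letter_mul (x : α × Bool) (e : FreeGroup α) :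
    (mk [x] * e).toWord = List.casesOn e.toWord [x] fun hd tl =>
        if x.1 = hd.1 ∧ x.2 = not hd.2 then tl else x :: hd :: tl := by
  rw [toWord_mul, toWord_letter, List.singleton_append, reduce.cons, reduce_toWord]

/-- Left multiplication by a letter different from `c⁻¹` preserves the last letter `c`. -/
lemma keep_last_letter (c : α) (x : α × Bool) (hx : x ≠ (c, false)) (e : FreeGroup α)
    (he : e.toWord.getLast? = some (c, true)) :
    (mk [x] * e).toWord.getLast? = some (c, true) := by
  rw [toWord_letter_mul]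
  rcases h : e.toWord with _ | ⟨hd, tl⟩
  · rw [h] at he; simp at he
  · rw [h] at he
    dsimp only
    split_ifs with hc
    · rcases tl with _ | ⟨a, tl⟩
      · exfalso
        simp only [List.getLast?_singleton, Option.some.injEq] at he
        apply hx
        rw [he] at hc
        exact Prod.ext hc.1 hc.2
      · simpa using he
    · simpa using he

lemma keep_last (c : α) (L : List (α × Bool)) (hL : (c, false) ∉ L) (e : FreeGroup α)
    (he : e.toWord.getLast? = some (c, true)) :
    (mk L * e).toWord.getLast? = some (c, true) := by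
  induction L with
  | nil => rw [← one_eq_mk, one_mul]; exact he
  | cons x L ih =>
    have h1 : (mk (x :: L) * e : FreeGroup α) = mk [x] * (mk L * e) := by
      rw [← mul_assoc, mul_mk]; rfl
    rw [h1]
    simp only [List.mem_cons, not_or] at hL
    exact keep_last_letter c x (Ne.symm hL.1) _ (ih hL.2)

lemma last_letter_mul (x : α × Bool) (e : FreeGroup α) (he : 2 ≤ e.toWord.length) :
    (mk [x] * e).toWord.getLast? = e.toWord.getLast? ∧
      e.toWord.length ≤ (mk [x] * e).toWord.length + 1 := by
  rw [toWord_letter_mul]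
  rcases h : e.toWord with _ | ⟨hd, _ | ⟨a, tl⟩⟩
  · rw [h] at he; simp at he
  · rw [h] at he; simp at he
  · dsimp only
    split_ifs with hc
    · simp
    · simp

lemma last_mul (L : List (α × Bool)) (e : FreeGroup α) (he : L.length + 1 ≤ e.toWord.length) :
    (mk L * e).toWord.getLast? = e.toWord.getLast? ∧
      e.toWord.length ≤ (mk L * e).toWord.length + L.length := by
  induction L with
  | nil => rw [← one_eq_mk, one_mul]; simp
  | cons x L ih =>
    have h1 : (mk (x :: L) * e : FreeGroup α) = mk [x] * (mk L * e) := by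
      rw [← mul_assoc, mul_mk]; rfl
    rw [h1]
    simp only [List.length_cons] at he ⊢
    obtain ⟨h2, h3⟩ := ih (by omega)
    obtain ⟨h4, h5⟩ := last_letter_mul x (mk L * e) (by omega)
    exact ⟨h4.trans h2, by omega⟩

lemma exists_bound [Finite α] (f : FreeGroup α →* FreeGroup α) :
    ∃ M : ℕ, ∀ g, (f g).toWord.length ≤ M * g.toWord.length := by
  obtain ⟨M, hM⟩ := Finite.exists_le (fun x : α × Bool => (f (mk [x])).toWord.length)
  refine ⟨M, fun g => ?_⟩
  have key : ∀ L : List (α × Bool), (f (mk L)).toWord.length ≤ M * L.length := by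
    intro L
    induction L with
    | nil => rw [← one_eq_mk, _root_.map_one]; simp
    | cons x L ih =>
      have h1 : (mk (x :: L) : FreeGroup α) = mk [x] * mk L := by
        rw [mul_mk]; rfl
      rw [h1, _root_.map_mul]
      have h2 : (f (mk [x]) * f (mk L)).toWord.length ≤
          (f (mk [x])).toWord.length + (f (mk L)).toWord.length := FreeGroup.norm_mul_le _ _
      have h3 := hM x
      simp only [List.length_cons]
      calc _ ≤ _ := h2
        _ ≤ M + M * L.length := by omega
        _ = M * (L.length + 1) := by ring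
  have := key g.toWord
  rwa [mk_toWord] at this

section Main

variable (φ : FreeGroup α ≃* FreeGroup α) (c : α)

/-- The set of elements whose preimage ends with the letter `c`. -/
def A : Set (FreeGroup α) := {h | (φ.symm h).toWord.getLast? = some (c, true)}

lemma mem_A {h : FreeGroup α} : h ∈ A φ c ↔ (φ.symm h).toWord.getLast? = some (c, true) := Iff.rfl

lemma A_closed (v : FreeGroup α) (hv : (c, false) ∉ v.toWord) (h : FreeGroup α)
    (hh : h ∈ A φ c) : φ v * h ∈ A φ c := by
  rw [mem_A] at hh ⊢
  rw [_root_.map_mul, MulEquiv.symm_apply_apply]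
  have := keep_last c v.toWord hv _ hh
  rwa [mk_toWord] at this

lemma A_closed_pow (v : FreeGroup α) (hv : (c, false) ∉ v.toWord) (h : FreeGroup α)
    (hh : h ∈ A φ c) (n : ℕ) : φ v ^ n * h ∈ A φ c := by
  induction n with
  | zero => simpa using hh
  | succ n ih =>
    rw [pow_succ', mul_assoc]
    exact A_closed φ c v hv _ ih

lemma exists_N [Finite α] : ∃ N : ℕ, ∀ h : FreeGroup α, N ≤ h.toWord.length →
    ∀ x, (mk [x] * h ∈ A φ c ↔ h ∈ A φ c) := by
  obtain ⟨M, hM⟩ := exists_bound φ.symm.toMonoidHom
  obtain ⟨M', hM'⟩ := exists_bound φ.toMonoidHom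
  refine ⟨M' * M + 1, fun h hh x => ?_⟩
  have h1 := hM (mk [x])
  rw [toWord_letter, List.length_singleton, mul_one] at h1
  change (φ.symm (mk [x])).toWord.length ≤ M at h1
  have h2 := hM' (φ.symm h)
  change (φ (φ.symm h)).toWord.length ≤ _ at h2
  rw [MulEquiv.apply_symm_apply] at h2
  have h3 : M < (φ.symm h).toWord.length := by
    by_contra hc
    push Not at hc
    have : M' * (φ.symm h).toWord.length ≤ M' * M := Nat.mul_le_mul_left _ hc
    omega
  have h4 := (last_mul (φ.symm (mk [x])).toWord (φ.symm h) (by omega)).1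
  rw [mk_toWord] at h4
  rw [mem_A, mem_A, _root_.map_mul, h4]

/-- The cone of elements whose reduced word ends with `l`. -/
def Cone (l : List (α × Bool)) : Set (FreeGroup α) := {h | l <:+ h.toWord}

/-- Almost all elements of the cone lie in `A`. -/
def Pos (l : List (α × Bool)) : Prop := {h | h ∈ Cone l ∧ h ∉ A φ c}.Finite
/-- Almost no elements of the cone lie in `A`. -/
def Neg (l : List (α × Bool)) : Prop := {h | h ∈ Cone l ∧ h ∈ A φ c}.Finite

lemma cone_step (l : List (α × Bool)) (h : FreeGroup α) (hh : h ∈ Cone l) :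
    h = mk l ∨ ∃ x, IsReduced (x :: l) ∧ h ∈ Cone (x :: l) := by
  obtain ⟨L, hL⟩ := hh
  rcases List.eq_nil_or_concat L with rfl | ⟨L', x, rfl⟩
  · left
    rw [List.nil_append] at hL
    rw [hL, mk_toWord]
  · right
    rw [List.concat_eq_append, List.append_assoc, List.singleton_append] at hL
    refine ⟨x, ?_, ⟨L', hL⟩⟩
    have h1 : IsReduced h.toWord := isReduced_toWord
    rw [← hL] at h1
    exact List.IsChain.right_of_append h1

lemma far_of [Finite α] : ∃ N : ℕ, ∀ l : List (α × Bool), IsReduced l → N ≤ l.length →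
    Pos φ c l ∨ Neg φ c l := by
  obtain ⟨N, hN⟩ := exists_N φ c
  refine ⟨N, fun l _ hlen => ?_⟩
  have key : ∀ L : List (α × Bool), IsReduced (L ++ l) → (mk (L ++ l) ∈ A φ c ↔ mk l ∈ A φ c) := by
    intro L
    induction L with
    | nil => intro _; simp
    | cons x L ih =>
      intro hred
      have hred' : IsReduced (L ++ l) :=
        List.IsChain.right_of_append (l₁ := [x]) (l₂ := L ++ l) hred
      have h1 : (mk (x :: L ++ l) : FreeGroup α) = mk [x] * mk (L ++ l) := by
        rw [mul_mk]; rfl
      rw [h1, hN _ (by rw [toWord_mk_of_isReduced hred']; simp; omega), ih hred']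
  have key2 : ∀ h ∈ Cone l, (h ∈ A φ c ↔ mk l ∈ A φ c) := by
    rintro h ⟨L, hL⟩
    have := key L (by rw [hL]; exact isReduced_toWord)
    rwa [hL, mk_toWord] at this
  by_cases hA : mk l ∈ A φ c
  · left
    have : {h | h ∈ Cone l ∧ h ∉ A φ c} = ∅ := by
      ext h
      simp only [Set.mem_ofPred_eq, Set.mem_empty_iff_false, iff_false, not_and, not_not]
      intro hh
      exact (key2 h hh).2 hA
    rw [Pos, this]
    exact Set.finite_empty
  · right
    have : {h | h ∈ Cone l ∧ h ∈ A φ c} = ∅ := by
      ext h
      simp only [Set.mem_ofPred_eq, Set.mem_empty_iff_false, iff_false, not_and]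
      intro hh h2
      exact hA ((key2 h hh).1 h2)
    rw [Neg, this]
    exact Set.finite_empty

/-- Two branches of opposite type. -/
def Mix : Prop := ∃ (l : List (α × Bool)) (y z : α × Bool), IsReduced (y :: l) ∧
  IsReduced (z :: l) ∧ Pos φ c (y :: l) ∧ Neg φ c (z :: l)

lemma pos_or_neg [Finite α] (hmix : ¬ Mix φ c) (l : List (α × Bool)) (hl : IsReduced l) :
    Pos φ c l ∨ Neg φ c l := by
  obtain ⟨N, hN⟩ := far_of φ c
  have key : ∀ n : ℕ, ∀ l : List (α × Bool), IsReduced l → N ≤ l.length + n →
      Pos φ c l ∨ Neg φ c l := by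
    intro n
    induction n with
    | zero => intro l hl h; exact hN l hl h
    | succ n ih =>
      intro l hl h
      have hch : ∀ x, IsReduced (x :: l) → Pos φ c (x :: l) ∨ Neg φ c (x :: l) := fun x hx =>
        ih (x :: l) hx (by simp; omega)
      by_cases hall : ∀ x, IsReduced (x :: l) → Pos φ c (x :: l)
      · left
        have hsub : {h | h ∈ Cone l ∧ h ∉ A φ c} ⊆ {mk l} ∪
            ⋃ x : {x : α × Bool // IsReduced (x :: l)}, {h | h ∈ Cone (x.1 :: l) ∧ h ∉ A φ c} := by
          rintro h ⟨hh, hA⟩
          rcases cone_step l h hh with h1 | ⟨x, hx, h1⟩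
          · left; exact h1
          · right
            rw [Set.mem_iUnion]
            exact ⟨⟨x, hx⟩, h1, hA⟩
        have hfin : ∀ x : {x : α × Bool // IsReduced (x :: l)},
            {h | h ∈ Cone (x.1 :: l) ∧ h ∉ A φ c}.Finite := fun x => hall x.1 x.2
        exact Set.Finite.subset (Set.Finite.union (Set.finite_singleton _)
          (Set.finite_iUnion hfin)) hsub
      · push Not at hall
        obtain ⟨x₀, hx₀, hp⟩ := hall
        have hneg₀ : Neg φ c (x₀ :: l) := (hch x₀ hx₀).resolve_left hp
        have hall' : ∀ x, IsReduced (x :: l) → Neg φ c (x :: l) := by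
          intro x hx
          rcases hch x hx with h1 | h1
          · exact absurd ⟨l, x, x₀, hx, hx₀, h1, hneg₀⟩ hmix
          · exact h1
        right
        have hsub : {h | h ∈ Cone l ∧ h ∈ A φ c} ⊆ {mk l} ∪
            ⋃ x : {x : α × Bool // IsReduced (x :: l)}, {h | h ∈ Cone (x.1 :: l) ∧ h ∈ A φ c} := by
          rintro h ⟨hh, hA⟩
          rcases cone_step l h hh with h1 | ⟨x, hx, h1⟩
          · left; exact h1
          · right
            rw [Set.mem_iUnion]
            exact ⟨⟨x, hx⟩, h1, hA⟩
        have hfin : ∀ x : {x : α × Bool // IsReduced (x :: l)},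
            {h | h ∈ Cone (x.1 :: l) ∧ h ∈ A φ c}.Finite := fun x => hall' x.1 x.2
        exact Set.Finite.subset (Set.Finite.union (Set.finite_singleton _)
          (Set.finite_iUnion hfin)) hsub
  exact key N l hl (by omega)

lemma not_pos_nil : ¬ Pos φ c [] := by
  intro h
  have hinj : Function.Injective fun n : ℕ => φ ((mk [(c, false)]) ^ n) := by
    intro n m hnm
    have h1 := φ.injective hnm
    have h2 := congrArg (fun g => g.toWord.length) h1
    have h3 : ∀ k : ℕ, ((mk [(c, false)] : FreeGroup α) ^ k).toWord.length = k := by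
      intro k
      have : (mk [(c, false)] : FreeGroup α) = (of c)⁻¹ := rfl
      rw [this, inv_pow, toWord_inv, invRev_length, toWord_of_pow, List.length_replicate]
    simpa [h3] using h2
  refine Set.infinite_of_injective_forall_mem hinj ?_ h
  intro n
  refine ⟨List.nil_suffix, ?_⟩
  rw [mem_A, MulEquiv.symm_apply_apply]
  have : (mk [(c, false)] : FreeGroup α) = (of c)⁻¹ := rfl
  rw [this, inv_pow, toWord_inv, toWord_of_pow]
  rcases n with _ | n
  · simp [invRev]
  · simp [invRev, List.getLast?_replicate]

lemma not_neg_nil : ¬ Neg φ c [] := by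
  intro h
  have hinj : Function.Injective fun n : ℕ => φ ((of c) ^ (n + 1)) := by
    intro n m hnm
    have h1 := φ.injective hnm
    have h2 := congrArg (fun g => g.toWord.length) h1
    simpa using h2
  refine Set.infinite_of_injective_forall_mem hinj ?_ h
  intro n
  refine ⟨List.nil_suffix, ?_⟩
  rw [mem_A, MulEquiv.symm_apply_apply, toWord_of_pow]
  simp [List.replicate_succ']

lemma mix [Finite α] : Mix φ c := by
  by_contra h
  rcases pos_or_neg φ c h [] IsReduced.nil with h1 | h1
  · exact not_pos_nil φ c h1
  · exact not_neg_nil φ c h1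

end Main

/-- The ray of elements `w ^ k * a * z * l`. -/
lemma ray (w a g l : List (α × Bool)) (z : α × Bool) (hw : IsCyclicallyReduced w)
    (hwe : w = a ++ [z] ++ g) (hz : IsReduced (z :: l)) (k : ℕ) :
    (mk w ^ k * mk (a ++ (z :: l)) : FreeGroup α).toWord =
      (List.replicate k w).flatten ++ a ++ (z :: l) := by
  have h1 : (mk w ^ k : FreeGroup α) = mk (List.replicate k w).flatten := by
    rw [pow_mk]
  have h2 : IsReduced ((List.replicate k w).flatten ++ a ++ [z]) := by
    have h3 : IsReduced (List.replicate (k + 1) w).flatten := (hw.flatten_replicate (k + 1)).1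
    rw [List.replicate_succ', List.flatten_concat] at h3
    rw [show (List.replicate k w).flatten ++ w =
      (List.replicate k w).flatten ++ a ++ [z] ++ g by
        conv_lhs => rw [hwe]
        simp [List.append_assoc, hwe]] at h3
    exact List.IsChain.left_of_append h3
  have h4 : IsReduced ((List.replicate k w).flatten ++ a ++ [z] ++ l) :=
    IsReduced.append_overlap h2 (by simpa using hz) (by simp)
  rw [h1, mul_mk, toWord_mk_of_isReduced]
  · simp
  · simpa using h4

/-- The ray consists of distinct elements of the cone. -/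
lemma ray_infinite (w a g l : List (α × Bool)) (z : α × Bool) (hw : IsCyclicallyReduced w)
    (hwe : w = a ++ [z] ++ g) (hz : IsReduced (z :: l)) (s : Set (FreeGroup α)) (hs : s.Finite) :
    ∃ k : ℕ, (mk w ^ k * mk (a ++ (z :: l)) : FreeGroup α) ∈ Cone (z :: l) ∧
      (mk w ^ k * mk (a ++ (z :: l)) : FreeGroup α) ∉ s := by
  have hpos : 0 < w.length := by rw [hwe]; simp
  have hinj : Function.Injective fun k : ℕ => (mk w ^ k * mk (a ++ (z :: l)) : FreeGroup α) := by
    intro k m hkm
    have h1 := congrArg (fun g => g.toWord.length) hkm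
    simp only [ray w a g l z hw hwe hz] at h1
    simp only [List.length_append, List.length_flatten, List.map_replicate, List.sum_replicate,
      smul_eq_mul] at h1
    exact Nat.eq_of_mul_eq_mul_right hpos (by omega)
  by_contra hc
  push Not at hc
  refine Set.infinite_of_injective_forall_mem hinj (fun k => hc k ?_) hs
  exact ⟨(List.replicate k w).flatten ++ a, by rw [ray w a g l z hw hwe hz]⟩

lemma isCyclicallyReduced_invRev {w : List (α × Bool)} (hw : IsCyclicallyReduced w) :
    IsCyclicallyReduced (invRev w) := by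
  have h1 : IsReduced (invRev w) := by
    have : (mk w : FreeGroup α)⁻¹.toWord = invRev w := by
      rw [toWord_inv, toWord_mk_of_isReduced hw.1]
    rw [← this]
    exact isReduced_toWord
  refine ⟨h1, ?_⟩
  intro x hx y hy hxy
  simp only [invRev, List.getLast?_reverse, List.head?_reverse, List.head?_map,
    List.getLast?_map, Option.mem_def, Option.map_eq_some_iff] at hx hy
  obtain ⟨p, hp, rfl⟩ := hx
  obtain ⟨q, hq, rfl⟩ := hy
  have := hw.2 q hq p hp hxy.symm
  simp only at this ⊢
  rw [this]

/-- The main theorem: a cyclically reduced word containing all reduced words of length two is not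
the image of a word in which the letter `c` occurs only with positive exponents. -/
theorem main [Finite α] (φ : FreeGroup α ≃* FreeGroup α) (c : α) (v : FreeGroup α)
    (hv : (c, false) ∉ v.toWord) (hw : IsCyclicallyReduced (φ v).toWord)
    (hall : ∀ x y : α × Bool, IsReduced [x, y] → [x, y] <:+: (φ v).toWord) : False := by
  obtain ⟨l, y, z, hy, hz, hpos, hneg⟩ := mix φ c
  set w := (φ v).toWord with hwdef
  have hmk : (mk w : FreeGroup α) = φ v := mk_toWord
  -- `y` and `z` are different
  have hyz : z ≠ y := by
    intro h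
    subst h
    have hfin : (Cone (z :: l) : Set (FreeGroup α)).Finite := by
      have : Cone (z :: l) = {h | h ∈ Cone (z :: l) ∧ h ∉ A φ c} ∪
          {h | h ∈ Cone (z :: l) ∧ h ∈ A φ c} := by
        ext h
        simp only [Set.mem_union, Set.mem_ofPred_eq]
        tauto
      rw [this]
      exact Set.Finite.union hpos hneg
    obtain ⟨k, h1, h2⟩ := ray_infinite [z] [] [] l z IsCyclicallyReduced.singleton rfl hz _ hfin
    exact h2 h1
  have hred : IsReduced [z, (y.1, !y.2)] := by
    rw [isReduced_cons_cons]
    refine ⟨fun h => ?_, IsReduced.singleton⟩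
    by_contra hc
    apply hyz
    have h2 : z.2 = y.2 := by
      simp only at hc
      revert hc
      cases z.2 <;> cases y.2 <;> simp
    exact Prod.ext h h2
  obtain ⟨a, b, hab⟩ := hall _ _ hred
  -- first ray
  obtain ⟨k, hk1, hk2⟩ := ray_infinite w a ((y.1, !y.2) :: b) l z hw
    (by rw [← hab]; simp) hz _ hneg
  -- second ray
  have hab' : invRev w = invRev b ++ [y] ++ invRev (a ++ [z]) := by
    rw [← hab]
    simp [invRev]
  obtain ⟨m, hm1, hm2⟩ := ray_infinite (invRev w) (invRev b) (invRev (a ++ [z])) l y
    (isCyclicallyReduced_invRev hw) hab' hy _ hpos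
  have hA : (mk (invRev w) ^ m * mk (invRev b ++ (y :: l)) : FreeGroup α) ∈ A φ c := by
    by_contra hc
    exact hm2 ⟨hm1, hc⟩
  apply hk2
  refine ⟨hk1, ?_⟩
  have h1 := A_closed_pow φ c v hv _ hA (m + 1 + k)
  have h2 : φ v ^ (m + 1 + k) * (mk (invRev w) ^ m * mk (invRev b ++ (y :: l))) =
      mk w ^ k * mk (a ++ (z :: l)) := by
    have h3 : (mk (invRev w) : FreeGroup α) = (φ v)⁻¹ := by rw [← inv_mk, hmk]
    have h4 : φ v * mk (invRev b ++ (y :: l)) = mk (a ++ (z :: l)) := by
      rw [← hmk, ← hab]
      have e1 : (mk (a ++ [z, (y.1, !y.2)] ++ b) : FreeGroup α) =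
          mk a * mk [z] * mk [(y.1, !y.2)] * mk b := by
        simp only [mul_mk]; simp
      have e2 : (mk (invRev b ++ (y :: l)) : FreeGroup α) = (mk b)⁻¹ * mk [y] * mk l := by
        rw [inv_mk]; simp only [mul_mk]; simp
      have e3 : (mk (a ++ (z :: l)) : FreeGroup α) = mk a * mk [z] * mk l := by
        simp only [mul_mk]; simp
      have e4 : (mk [(y.1, !y.2)] : FreeGroup α) = (mk [y])⁻¹ := by
        rw [inv_mk]; simp [invRev]
      rw [e1, e2, e3, e4]
      group
    rw [h3, ← h4, hmk, pow_add, pow_add, pow_one, inv_pow]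
    have h5 : φ v ^ m * φ v * φ v ^ k = φ v ^ k * φ v * φ v ^ m := by
      rw [← pow_succ, ← pow_succ, ← pow_add, ← pow_add]; congr 1; ring
    rw [h5]
    group
  rw [h2] at h1
  exact h1

end Pool.Agent.ThreeP
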